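import Pool.Agent.W_7d29a1_h71g.Conf
import Pool.Agent.W_7d29a1_G.HB0

/-!
Track G (MP_7d29a1_pr), section (B): confinement of the point to point polymer at one time, in terms of the Gibbs probabilities
`pin`, and `HB0` (single sites) without hypotheses. (helper71)
-/

namespace Pool.Agent.W_7d29a1_h71g

open MeasureTheory ProbabilityTheory Filter Topology Pool.Agent.W_7d29a1_F Pool.Agent.W_7d29a1_h4g Pool.Agent.W_7d29a1_G
  Pool.Agent.W_7d29a1_g
open Pool.Agent.W_7d29a1_h48 (pin)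
open Pool.Agent.W_7d29a1_h68 (pin_nonneg pin_sum measurable_pin cell mem_cell)

variable {μ : Measure ℝ}

/-- The Gibbs probability of a set of sites of the time `t`. -/
theorem sum_pin (η : Env) {t N : ℕ} (htN : t ≤ N) (z : ℤ) (O : Finset ℤ) :
    ∑ p ∈ O, pin μ 0 η t (N - t) z p =
      Gt μ 0 (O.image fun p => (((t : ℤ), p) : Pt)) (0, 0) ((N : ℤ), z) η / W μ 0 η 0 N z := by
  unfold Gt
  rw [Finset.sum_image (fun a _ b _ h => (Prod.mk.inj h).2), Finset.sum_div]
  refine Finset.sum_congr rfl fun p _ => ?_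
  unfold pin
  have h1 : wt μ 0 Set.univ η ((0, 0) : Pt) (((t : ℤ), p) : Pt) = W μ 0 η 0 t p := by
    rw [wt_univ (by simp)]
    simp
    rfl
  have h2 : wt μ 0 Set.univ η (((t : ℤ), p) : Pt) (((N : ℤ), z) : Pt) = W μ 0 η ((t : ℤ), p) (N - t) (z - p) := by
    rw [wt_univ (by simpa using htN)]
    congr 1
    simp only
    omega
  rw [h1, h2, Nat.add_sub_cancel' htN]

variable [IsProbabilityMeasure μ]

/-- CONFINEMENT AT ONE TIME. -/
theorem conf_pin (hμ : Pool.Agent.W_7d29a1_h47.EM μ) (hnd : Pool.Agent.W_7d29a1_h47.Nondeg μ) {A δ : ℝ} (hA : 0 < A)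
    (hδ : 0 < δ) : ∃ R : ℝ, 1 ≤ R ∧ ∃ n₀ : ℕ, ∀ n, n₀ ≤ n → ∀ (N : ℕ), N ≤ 2 * n → Even N → ∀ t : ℕ, t ≤ N →
      ∀ I : Finset ℤ, (∀ p : ℤ, 0 ≤ p → p ≤ t → |(p : ℝ) - t / 2| ≤ R * (vA μ A n * n) → p ∈ I) →
        1 - δ ≤ ∫ η, ∑ p ∈ I, pin μ 0 η t (N - t) ((N : ℤ) / 2) p ∂(law μ) := by
  classical
  set κ : ℝ := 32 / δ with hκ
  have hκ0 : 0 < κ := by positivity
  obtain ⟨R, hR1, n₀, hR⟩ := far_prob hμ hnd hA (p := δ / 8) (κ := κ) (by positivity) hκ0.le
  refine ⟨R, hR1, n₀, fun n hn N hN hNe t ht I hI => ?_⟩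
  obtain ⟨_, hfar⟩ := hR n hn
  have hE := one_le_EE (μ := μ) n
  set E : ℝ := EE μ n with hEdef
  set w : ℝ := n * vA μ A n with hw
  have hw' : vA μ A n * n = w := mul_comm _ _
  rw [hw'] at hI
  set Op : Finset ℤ := (Finset.Icc (0 : ℤ) t).filter fun p => (t : ℝ) / 2 + R * w ≤ p with hOp
  set Om : Finset ℤ := (Finset.Icc (0 : ℤ) t).filter fun p => (p : ℝ) ≤ (t : ℝ) / 2 - R * w with hOm
  have hz0 : (0 : ℤ) ≤ md N := md_nonneg N
  have hz1 : md N ≤ ((t + (N - t) : ℕ) : ℤ) := by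
    rw [Nat.add_sub_cancel' ht]
    exact md_le N
  -- the mass outside
  have hout : ∀ η : Env, 1 ≤ ∑ p ∈ I, pin μ 0 η t (N - t) (md N) p +
      (∑ p ∈ Op, pin μ 0 η t (N - t) (md N) p + ∑ p ∈ Om, pin μ 0 η t (N - t) (md N) p) := by
    intro η
    have h1 := pin_sum (μ := μ) (s := 0) η (t := t) (m := N - t) hz0 hz1
    rw [← h1]
    have hsub : Finset.Icc (0 : ℤ) t ⊆ I ∪ (Op ∪ Om) := by
      intro p hp
      rw [Finset.mem_union, Finset.mem_union]
      by_cases h : p ∈ I
      · exact Or.inl h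
      · right
        have hp' := Finset.mem_Icc.1 hp
        have h2 : ¬ |(p : ℝ) - t / 2| ≤ R * w := fun h3 => h (hI p hp'.1 hp'.2 h3)
        rw [not_le, lt_abs] at h2
        rcases h2 with h2 | h2
        · left
          rw [hOp, Finset.mem_filter]
          exact ⟨hp, by linarith⟩
        · right
          rw [hOm, Finset.mem_filter]
          exact ⟨hp, by linarith⟩
    have h2 : ∑ p ∈ Finset.Icc (0 : ℤ) t, pin μ 0 η t (N - t) (md N) p ≤
        ∑ p ∈ I ∪ (Op ∪ Om), pin μ 0 η t (N - t) (md N) p :=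
      Finset.sum_le_sum_of_subset_of_nonneg hsub fun p _ _ => pin_nonneg η _ _ _ _
    have h3 : ∀ P Q : Finset ℤ, ∑ p ∈ P ∪ Q, pin μ 0 η t (N - t) (md N) p ≤
        ∑ p ∈ P, pin μ 0 η t (N - t) (md N) p + ∑ p ∈ Q, pin μ 0 η t (N - t) (md N) p := by
      intro P Q
      rw [← Finset.sum_union_inter]
      exact le_add_of_nonneg_right (Finset.sum_nonneg fun p _ => pin_nonneg η _ _ _ _)
    linarith [h3 I (Op ∪ Om), h3 Op Om]
  have hone : ∀ (O : Finset ℤ), O ⊆ Finset.Icc (0 : ℤ) t → ∀ η : Env, ∑ p ∈ O, pin μ 0 η t (N - t) (md N) p ≤ 1 := by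
    intro O hO η
    rw [← pin_sum (μ := μ) (s := 0) η (t := t) (m := N - t) hz0 hz1]
    exact Finset.sum_le_sum_of_subset_of_nonneg hO fun p _ _ => pin_nonneg η _ _ _ _
  -- the events
  set Bad : Set Env := {η | κ * E / 2 ≤ max (X μ 0 η 0 N (md N)) 0} with hBad
  set Ap : Set Env := {η | Real.exp (-(κ * E)) ≤ Gt μ 0 (Op.image fun p => (((t : ℤ), p) : Pt)) (0, 0) ((N : ℤ), md N) η}
    with hAp
  set Am : Set Env := {η | Real.exp (-(κ * E)) ≤ Gt μ 0 (Om.image fun p => (((t : ℤ), p) : Pt)) (0, 0) ((N : ℤ), md N) η}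
    with hAm
  have hSt : ∀ O : Finset ℤ, ∀ v ∈ O.image fun p => (((t : ℤ), p) : Pt), v.1 = t := by
    intro O v hv
    obtain ⟨p, _, rfl⟩ := Finset.mem_image.1 hv
    rfl
  have hmG : ∀ O : Finset ℤ, Measurable fun η : Env =>
      Gt μ 0 (O.image fun p => (((t : ℤ), p) : Pt)) (0, 0) ((N : ℤ), md N) η := fun O =>
    (poly_Gt (μ := μ) (s := 0) _ (0, 0) ((N : ℤ), md N) (τ := t) (hSt O) (by simp) (by simpa using ht)).measurable
  have hmB : MeasurableSet Bad := measurableSet_le measurable_const (meas_Xp N (md N))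
  have hmAp : MeasurableSet Ap := measurableSet_le measurable_const (hmG Op)
  have hmAm : MeasurableSet Am := measurableSet_le measurable_const (hmG Om)
  have hpAp : (law μ).real Ap < δ / 8 := by
    refine hfar t N _ ht hN hNe (hSt Op) (Or.inl fun v hv => ?_)
    obtain ⟨p, hp, rfl⟩ := Finset.mem_image.1 hv
    exact (Finset.mem_filter.1 hp).2
  have hpAm : (law μ).real Am < δ / 8 := by
    refine hfar t N _ ht hN hNe (hSt Om) (Or.inr fun v hv => ?_)
    obtain ⟨p, hp, rfl⟩ := Finset.mem_image.1 hv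
    exact (Finset.mem_filter.1 hp).2
  have hpB : (law μ).real Bad ≤ δ / 8 := by
    have h1 := mul_meas_ge_le_integral_of_nonneg (μ := law μ) (f := fun η => max (X μ 0 η 0 N (md N)) 0)
      (Filter.Eventually.of_forall fun η => le_max_right _ _) (int_Xp hμ 0 (md_nonneg N) (md_le N)) (κ * E / 2)
    have h2 : ∫ η, max (X μ 0 η 0 N (md N)) 0 ∂(law μ) ≤ 2 * E := by
      have h3 := ep_le_EE (μ := μ) hN
      have h4 := EE_two hμ n
      have h5 : ep μ N (md N) = ∫ η, max (X μ 0 η 0 N (md N)) 0 ∂(law μ) := rfl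
      rw [← h5]
      linarith
    have h3 : κ * E / 2 * (law μ).real Bad ≤ 2 * E := h1.trans h2
    have h4 : κ * (law μ).real Bad ≤ 4 := by
      have h5 : E * (κ * (law μ).real Bad) ≤ E * 4 := by linarith
      exact le_of_mul_le_mul_left h5 (by linarith)
    rw [hκ, div_mul_eq_mul_div, div_le_iff₀ hδ] at h4
    linarith
  -- the bound outside
  have hpt : ∀ η : Env, ∑ p ∈ Op, pin μ 0 η t (N - t) (md N) p + ∑ p ∈ Om, pin μ 0 η t (N - t) (md N) p ≤
      2 * Bad.indicator 1 η + Ap.indicator 1 η + Am.indicator 1 η + 2 * Real.exp (-(κ * E / 2)) := by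
    intro η
    have e0 : 0 ≤ Real.exp (-(κ * E / 2)) := (Real.exp_pos _).le
    have i1 : 0 ≤ Bad.indicator (1 : Env → ℝ) η := Set.indicator_nonneg (fun _ _ => zero_le_one) η
    have i2 : 0 ≤ Ap.indicator (1 : Env → ℝ) η := Set.indicator_nonneg (fun _ _ => zero_le_one) η
    have i3 : 0 ≤ Am.indicator (1 : Env → ℝ) η := Set.indicator_nonneg (fun _ _ => zero_le_one) η
    have hop := hone Op (Finset.filter_subset _ _) η
    have hom := hone Om (Finset.filter_subset _ _) η
    by_cases hb : η ∈ Bad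
    · rw [Set.indicator_of_mem hb]
      simp only [Pi.one_apply]
      linarith
    have hWpos := W_pos (μ := μ) (s := 0) η 0 (md_nonneg N) (md_le N)
    have hX : -Real.log (W μ 0 η 0 N (md N)) < κ * E / 2 := by
      have : ¬ κ * E / 2 ≤ max (X μ 0 η 0 N (md N)) 0 := hb
      rw [not_le] at this
      exact lt_of_le_of_lt (le_max_left _ _) this
    have hW : Real.exp (-(κ * E / 2)) ≤ W μ 0 η 0 N (md N) := by
      rw [← Real.le_log_iff_exp_le hWpos]
      linarith
    have hbd : ∀ G : ℝ, G < Real.exp (-(κ * E)) → G / W μ 0 η 0 N (md N) ≤ Real.exp (-(κ * E / 2)) := by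
      intro G hG
      rw [div_le_iff₀ hWpos]
      have h1 : Real.exp (-(κ * E)) = Real.exp (-(κ * E / 2)) * Real.exp (-(κ * E / 2)) := by
        rw [← Real.exp_add]
        congr 1
        ring
      have h2 := mul_le_mul_of_nonneg_left hW e0
      linarith
    have hp1 : ∑ p ∈ Op, pin μ 0 η t (N - t) (md N) p ≤ Ap.indicator 1 η + Real.exp (-(κ * E / 2)) := by
      by_cases ha : η ∈ Ap
      · rw [Set.indicator_of_mem ha]
        simp only [Pi.one_apply]
        linarith
      · rw [sum_pin η ht]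
        have h1 : Gt μ 0 (Op.image fun p => (((t : ℤ), p) : Pt)) (0, 0) ((N : ℤ), md N) η < Real.exp (-(κ * E)) := by
          have : ¬ Real.exp (-(κ * E)) ≤ _ := ha
          exact not_le.1 this
        have := hbd _ h1
        linarith
    have hm1 : ∑ p ∈ Om, pin μ 0 η t (N - t) (md N) p ≤ Am.indicator 1 η + Real.exp (-(κ * E / 2)) := by
      by_cases ha : η ∈ Am
      · rw [Set.indicator_of_mem ha]
        simp only [Pi.one_apply]
        linarith
      · rw [sum_pin η ht]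
        have h1 : Gt μ 0 (Om.image fun p => (((t : ℤ), p) : Pt)) (0, 0) ((N : ℤ), md N) η < Real.exp (-(κ * E)) := by
          have : ¬ Real.exp (-(κ * E)) ≤ _ := ha
          exact not_le.1 this
        have := hbd _ h1
        linarith
    linarith
  have hint : ∀ O : Finset ℤ, O ⊆ Finset.Icc (0 : ℤ) t → Integrable (fun η => ∑ p ∈ O, pin μ 0 η t (N - t) (md N) p) (law μ) := by
    intro O hO
    refine Integrable.of_bound (C := 1) (Finset.measurable_sum _ fun p _ =>
      measurable_pin t (N - t) (md N) p).aestronglyMeasurable (Filter.Eventually.of_forall fun η => ?_)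
    rw [Real.norm_of_nonneg (Finset.sum_nonneg fun p _ => pin_nonneg η _ _ _ _)]
    exact hone O hO η
  have hbound : ∀ (S : Set Env), MeasurableSet S → Integrable (S.indicator (1 : Env → ℝ)) (law μ) := fun S hS =>
    (integrable_const (1 : ℝ)).indicator hS
  have hI1 : ∫ η, (∑ p ∈ Op, pin μ 0 η t (N - t) (md N) p + ∑ p ∈ Om, pin μ 0 η t (N - t) (md N) p) ∂(law μ) ≤
      2 * (law μ).real Bad + (law μ).real Ap + (law μ).real Am + 2 * Real.exp (-(κ * E / 2)) := by
    have h1 := integral_mono ((hint Op (Finset.filter_subset _ _)).add (hint Om (Finset.filter_subset _ _)))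
      (((((hbound Bad hmB).const_mul 2).add (hbound Ap hmAp)).add (hbound Am hmAm)).add
        (integrable_const (2 * Real.exp (-(κ * E / 2))))) hpt
    refine h1.trans (le_of_eq ?_)
    simp only [Pi.add_apply]
    rw [integral_add, integral_add, integral_add, integral_const_mul, integral_indicator_one hmB,
      integral_indicator_one hmAp, integral_indicator_one hmAm, integral_const]
    · simp
    · exact (hbound Bad hmB).const_mul 2
    · exact hbound Ap hmAp
    · exact ((hbound Bad hmB).const_mul 2).add (hbound Ap hmAp)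
    · exact hbound Am hmAm
    · exact (((hbound Bad hmB).const_mul 2).add (hbound Ap hmAp)).add (hbound Am hmAm)
    · exact integrable_const _
  have hexp : Real.exp (-(κ * E / 2)) ≤ δ / 16 := by
    have h1 : 16 / δ ≤ κ * E / 2 := by
      have : κ * E / 2 = 16 / δ * E := by rw [hκ]; ring
      rw [this]
      have h2 : 0 < 16 / δ := by positivity
      nlinarith
    have h2 : Real.exp (-(κ * E / 2)) ≤ Real.exp (-(16 / δ)) := Real.exp_le_exp.2 (by linarith)
    have h3 : 16 / δ ≤ Real.exp (16 / δ) := by linarith [Real.add_one_le_exp (16 / δ)]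
    have h4 : 0 < 16 / δ := by positivity
    have h5 : Real.exp (-(16 / δ)) ≤ δ / 16 := by
      rw [Real.exp_neg, inv_le_comm₀ (Real.exp_pos _) (by positivity)]
      have : (δ / 16)⁻¹ = 16 / δ := by rw [inv_div]
      rw [this]
      exact h3
    linarith
  have hintI : Integrable (fun η => ∑ p ∈ I, pin μ 0 η t (N - t) (md N) p) (law μ) := by
    refine integrable_finsetSum _ fun p _ => ?_
    refine Integrable.of_bound (C := 1) (measurable_pin t (N - t) (md N) p).aestronglyMeasurable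
      (Filter.Eventually.of_forall fun η => ?_)
    rw [Real.norm_of_nonneg (pin_nonneg η _ _ _ _)]
    by_cases hp : p ∈ Finset.Icc (0 : ℤ) t
    · have := hone {p} (Finset.singleton_subset_iff.2 hp) η
      rwa [Finset.sum_singleton] at this
    · have : pin μ 0 η t (N - t) (md N) p = 0 := by
        unfold pin
        rw [W_eq_zero η 0 (fun h => hp (Finset.mem_Icc.2 h)), zero_mul, zero_div]
      rw [this]
      exact zero_le_one
  have hI2 := integral_mono (integrable_const (1 : ℝ)) (hintI.add ((hint Op (Finset.filter_subset _ _)).add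
    (hint Om (Finset.filter_subset _ _)))) (μ := law μ) hout
  have e1 : ∫ η, ((fun η => ∑ p ∈ I, pin μ 0 η t (N - t) (md N) p) + ((fun η => ∑ p ∈ Op, pin μ 0 η t (N - t) (md N) p) +
      fun η => ∑ p ∈ Om, pin μ 0 η t (N - t) (md N) p)) η ∂(law μ) =
      ∫ η, ∑ p ∈ I, pin μ 0 η t (N - t) (md N) p ∂(law μ) +
      ∫ η, (∑ p ∈ Op, pin μ 0 η t (N - t) (md N) p + ∑ p ∈ Om, pin μ 0 η t (N - t) (md N) p) ∂(law μ) :=
    integral_add hintI ((hint Op (Finset.filter_subset _ _)).add (hint Om (Finset.filter_subset _ _)))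
  rw [e1, integral_const] at hI2
  have e2 : (law μ).real Set.univ • (1 : ℝ) = 1 := by simp
  rw [e2] at hI2
  have e3 : ((N : ℤ) / 2) = md N := rfl
  rw [e3]
  linarith

/-- The hypothesis of `hb0_of_conf`. -/
theorem confH (hμ : Pool.Agent.W_7d29a1_h47.EM μ) (hnd : Pool.Agent.W_7d29a1_h47.Nondeg μ) : ConfH μ := by
  intro δ hδ
  obtain ⟨R, _, n₀, h⟩ := conf_pin hμ hnd one_pos hδ
  refine ⟨R, n₀, fun x hx N hNe _ hN t ht => ?_⟩
  refine h (2 ^ x) hx N hN hNe t ht _ fun p h0 h1 h2 => ?_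
  rw [mem_cell, Finset.mem_Icc]
  push_cast at h2
  exact ⟨⟨h0, h1⟩, h2⟩

/-- `HB0` of the interface: single sites. -/
theorem hb0 (hμ : Pool.Agent.W_7d29a1_h47.EM μ) (hnd : Pool.Agent.W_7d29a1_h47.Nondeg μ) : HB0 μ 3 :=
  hb0_of_conf hμ hnd (confH hμ hnd)

end Pool.Agent.W_7d29a1_h71g
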