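import Pool.Agent.W_7d29a1_G.FR0
import Pool.Agent.W_7d29a1_g.Confine

/-!
Track G (MP_7d29a1_pr), section (B): confinement of the point to point polymer at one time, at every scale, from the exact
confinement inequalities (row 619, section 3), (MC) and the convexity of `J` only. (helper71)
-/

namespace Pool.Agent.W_7d29a1_h71g

open MeasureTheory ProbabilityTheory Filter Topology Pool.Agent.W_7d29a1_F Pool.Agent.W_7d29a1_h4g Pool.Agent.W_7d29a1_G
  Pool.Agent.W_7d29a1_g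

variable {μ : Measure ℝ} [IsProbabilityMeasure μ]

/-- The cone is at least as wide as the unit, up to a constant. -/
theorem EE_le_width (hμ : Pool.Agent.W_7d29a1_h47.EM μ) {A : ℝ} (hA : 0 < A) {n : ℕ} (h : vA μ A n < 1 / 2) :
    A * EE μ n ≤ 2 * J μ (1 / 2) * (n * vA μ A n) := by
  have hp := vA_pos hμ hA n
  have h1 : 1 ≤ 1 / 2 / vA μ A n := by rw [one_le_div hp]; exact h.le
  have h2 := J_mul hμ hp.le h1 (by rw [div_mul_cancel₀ _ hp.ne'])
  rw [div_mul_cancel₀ _ hp.ne', div_mul_eq_mul_div, div_le_iff₀ hp] at h2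
  rw [← vA_eq' hμ hA.le h]
  have hn : (0 : ℝ) ≤ n := Nat.cast_nonneg n
  nlinarith [mul_le_mul_of_nonneg_left h2 hn]

/-- The mean cost of a displacement of time `T ≤ 2 n` far from the centre. -/
theorem far_cost (hμ : Pool.Agent.W_7d29a1_h47.EM μ) {A : ℝ} (hA : 0 < A) {n : ℕ} (h : vA μ A n < 1 / 2) {T : ℕ}
    (hT : 1 ≤ T) (hTn : T ≤ 2 * n) {y : ℤ} (h0 : 0 ≤ y) (h1 : y ≤ T) {D : ℝ} (hD : 2 * (n * vA μ A n) ≤ D)
    (hy : D ≤ |(y : ℝ) - T / 2|) : A * EE μ n * (D / (n * vA μ A n)) ≤ e μ 0 T y := by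
  have hp := vA_pos hμ hA n
  have hE := one_le_EE (μ := μ) n
  have hn0 : (0 : ℝ) < n := by
    have : 1 ≤ n := by omega
    exact_mod_cast this
  have hT0 : (0 : ℝ) < T := by exact_mod_cast hT
  have hT2 : (T : ℝ) ≤ 2 * n := by exact_mod_cast hTn
  have hw : 0 < (n : ℝ) * vA μ A n := by positivity
  have e1 := J_le_e hμ hT h0 h1
  rw [← J_abs hμ] at e1
  set u : ℝ := |((y : ℝ) - T / 2) / T| with hu
  have hu1 : u * T = |(y : ℝ) - T / 2| := by
    rw [hu, abs_div, abs_of_pos hT0]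
    field_simp
  have hu2 : vA μ A n ≤ u := by
    rw [← mul_le_mul_iff_left₀ hT0, hu1]
    nlinarith
  have hu3 : u ≤ 1 / 2 := by
    rw [← mul_le_mul_iff_left₀ hT0, hu1, abs_le]
    have : (0 : ℝ) ≤ y := by exact_mod_cast h0
    have : (y : ℝ) ≤ T := by exact_mod_cast h1
    constructor <;> linarith
  have e2 := J_line hμ hA h hu2 hu3
  have e3 : A * EE μ n * (D / (n * vA μ A n)) ≤ A * EE μ n * (u / vA μ A n) * (T / n) := by
    have : u / vA μ A n * (T / n) = (u * T) / (n * vA μ A n) := by field_simp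
    rw [mul_assoc (A * EE μ n), this, hu1]
    gcongr
  have e4 : A * EE μ n * (u / vA μ A n) * (T / n) ≤ n * J μ u * (T / n) :=
    mul_le_mul_of_nonneg_right e2 (by positivity)
  have e5 : n * J μ u * (T / n) = T * J μ u := by field_simp
  linarith

/-- Confinement at one time in probability: for all `p`, `κ` there is `R` such that for large `n` the paths from `0` to
`(N, N / 2)`, `N ≤ 2 n`, which are at the time `T` at distance at least `R n vA(n)` on one side of the centre weigh at least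
`exp (- κ EE(n))` with probability less than `p`. -/
theorem far_prob (hμ : Pool.Agent.W_7d29a1_h47.EM μ) (hnd : Pool.Agent.W_7d29a1_h47.Nondeg μ) {A p κ : ℝ} (hA : 0 < A)
    (hp : 0 < p) (hκ : 0 ≤ κ) : ∃ R : ℝ, 1 ≤ R ∧ ∃ n₀ : ℕ, ∀ n, n₀ ≤ n →
    2 ≤ R * (n * vA μ A n) ∧ ∀ (T N : ℕ) (S : Finset Pt), T ≤ N → N ≤ 2 * n → Even N → (∀ v ∈ S, v.1 = T) →
      ((∀ v ∈ S, (T : ℝ) / 2 + R * (n * vA μ A n) ≤ v.2) ∨ (∀ v ∈ S, (v.2 : ℝ) ≤ (T : ℝ) / 2 - R * (n * vA μ A n))) →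
      (law μ).real {η | Real.exp (-(κ * EE μ n)) ≤ Gt μ 0 S (0, 0) ((N : ℤ), md N) η} < p := by
  obtain ⟨T₀, C, hC⟩ := conf_prob hμ hnd hp
  set jh : ℝ := J μ (1 / 2) with hjh
  have hj : 0 ≤ jh := J_nonneg hμ (by norm_num [abs_of_pos])
  set Q : ℝ := 3 * jh + 2 + 2 * κ + |C| + 6 * 2 ^ (T₀ + 1) + 1 with hQ
  have hQ0 : 0 < Q := by positivity
  set R : ℝ := Q / A + 2 + 4 * jh / A with hR
  have hR1 : 1 ≤ R := by
    have : 0 ≤ Q / A + 4 * jh / A := by positivity
    rw [hR]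
    linarith
  obtain ⟨n₀, hn₀⟩ := eventually_atTop.1 (vA_lt_half hμ hnd hA.le)
  refine ⟨R, hR1, max n₀ 1, fun n hn => ?_⟩
  have hv := hn₀ n ((le_max_left _ _).trans hn)
  have hn1 : 1 ≤ n := (le_max_right _ _).trans hn
  have hn0 : (0 : ℝ) < n := by exact_mod_cast hn1
  have hpv := vA_pos hμ hA n
  have hE := one_le_EE (μ := μ) n
  set w : ℝ := n * vA μ A n with hw
  have hw0 : 0 < w := by positivity
  have hwE := EE_le_width hμ hA hv
  rw [← hw, ← hjh] at hwE
  have hjpos : 0 < jh := by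
    by_contra hcon
    have : jh = 0 := le_antisymm (not_lt.1 hcon) hj
    rw [this] at hwE
    nlinarith
  have hRw : 2 * w + 2 ≤ R * w := by
    have h1 : R * w = Q / A * w + 2 * w + 4 * jh / A * w := by rw [hR]; ring
    have h2 : 2 ≤ 4 * jh / A * w := by
      rw [div_mul_eq_mul_div, le_div_iff₀ hA]
      nlinarith
    have h3 : 0 ≤ Q / A * w := by positivity
    linarith
  refine ⟨by linarith, fun T N S hTN hN hNe hS hcase => ?_⟩
  have hz : ((md N : ℤ) : ℝ) = (N : ℝ) / 2 := by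
    obtain ⟨k, hk⟩ := hNe
    unfold md
    rw [hk]
    push_cast
    have : ((k : ℤ) + k) / 2 = k := by omega
    rw [this]
    push_cast
    ring
  have hmd : ∀ m : ℕ, ((md m : ℤ) : ℝ) ≤ (m : ℝ) / 2 ∧ (m : ℝ) / 2 - 1 / 2 ≤ ((md m : ℤ) : ℝ) := by
    intro m
    have h1 : 2 * md m ≤ m := by unfold md; omega
    have h2 : (m : ℤ) ≤ 2 * md m + 1 := by unfold md; omega
    have h1' : (2 : ℝ) * (md m : ℤ) ≤ m := by exact_mod_cast h1
    have h2' : (m : ℝ) ≤ 2 * (md m : ℤ) + 1 := by exact_mod_cast h2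
    constructor <;> linarith
  have hE2 : EE μ (2 * n) ≤ 2 * EE μ n := EE_two hμ n
  -- the mean cost of the reference
  have href : ∀ m : ℕ, m ≤ 2 * n → e μ 0 m (md m) ≤ 2 * EE μ n := by
    intro m hm
    have h1 := e_le_ep hμ (md_nonneg m) (md_le m) (μ := μ)
    have h2 := ep_le_EE (μ := μ) hm
    linarith
  -- the far cost
  have hfar : ∀ (m : ℕ) (y : ℤ), 1 ≤ m → m ≤ 2 * n → 0 ≤ y → y ≤ m → R * w - 3 / 2 ≤ (y : ℝ) - m / 2 →
      max (max (2 * (κ * EE μ n)) C) (6 * EU μ 0 md (2 ^ T₀ * N)) < e μ 0 m y - e μ 0 m (md m) := by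
    intro m y hm1 hm2 hy0 hy1 hy
    have h1 := far_cost hμ hA hv hm1 hm2 hy0 hy1 (D := R * w - 3 / 2) (by rw [← hw]; linarith)
      (hy.trans (le_abs_self _))
    rw [← hw] at h1
    have h2 := href m hm2
    have h3 : A * EE μ n * ((R * w - 3 / 2) / w) = A * EE μ n * R - A * EE μ n * (3 / 2) / w := by
      field_simp
    have h4 : A * EE μ n * (3 / 2) / w ≤ 3 * jh := by
      rw [div_le_iff₀ hw0]
      nlinarith
    have h5 : A * EE μ n * R = EE μ n * (Q + 2 * A + 4 * jh) := by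
      rw [hR]
      field_simp
    have h6 : EU μ 0 md (2 ^ T₀ * N) ≤ 2 ^ (T₀ + 1) * EE μ n := by
      have k1 : EE μ (2 ^ T₀ * N) ≤ EE μ (2 ^ (T₀ + 1) * n) := by
        refine EE_mono ?_
        calc 2 ^ T₀ * N ≤ 2 ^ T₀ * (2 * n) := Nat.mul_le_mul_left _ hN
          _ = 2 ^ (T₀ + 1) * n := by ring
      have k2 := EE_mul hμ (2 ^ (T₀ + 1)) n Nat.one_le_two_pow (μ := μ)
      push_cast at k2
      exact k1.trans k2
    have h7 : EE μ n * Q = EE μ n * (3 * jh) + EE μ n * 2 + EE μ n * (2 * κ) + EE μ n * |C| +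
        EE μ n * (6 * 2 ^ (T₀ + 1)) + EE μ n := by
      rw [hQ]; ring
    have h8 : |C| ≤ EE μ n * |C| := by nlinarith [abs_nonneg C]
    have h9 : 3 * jh ≤ EE μ n * (3 * jh) := by nlinarith
    have h10 : 0 ≤ EE μ n * (2 * κ) := by positivity
    have h11 : 0 ≤ EE μ n * (6 * 2 ^ (T₀ + 1)) := by positivity
    have h12 : 0 ≤ EE μ n * (2 * A + 4 * jh) := by positivity
    have h13 : 0 ≤ EE μ n * |C| := by positivity
    have key : EE μ n * (2 * κ) + EE μ n * |C| + EE μ n * (6 * 2 ^ (T₀ + 1)) + EE μ n ≤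
        e μ 0 m y - e μ 0 m (md m) := by
      rw [h3, h5] at h1
      nlinarith
    refine max_lt (max_lt ?_ ?_) ?_
    · linarith
    · have := le_abs_self C
      linarith
    · have : 6 * EU μ 0 md (2 ^ T₀ * N) ≤ EE μ n * (6 * 2 ^ (T₀ + 1)) := by
        have := mul_le_mul_of_nonneg_left h6 (show (0 : ℝ) ≤ 6 by norm_num)
        linarith
      linarith
  rcases Gt_pos_or (μ := μ) (s := 0) S (0, 0) ((N : ℤ), md N) with hpos | hzero
  swap
  · have hset : {η | Real.exp (-(κ * EE μ n)) ≤ Gt μ 0 S (0, 0) ((N : ℤ), md N) η} = ∅ := by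
      ext η
      simp only [Set.mem_ofPred_eq, Set.mem_empty_iff_false, iff_false, not_le]
      rw [hzero η]
      exact Real.exp_pos _
    rw [hset]
    simpa using hp
  rcases hcase with hr | hl
  · -- right
    have hc := hmd T
    set Y : ℤ := ⌊R * w⌋ with hY
    have hY1 : (Y : ℝ) ≤ R * w := Int.floor_le _
    have hY2 : R * w - 1 < Y := Int.sub_one_lt_floor _
    have hY0 : 0 ≤ Y := Int.floor_nonneg.2 (by linarith)
    have hYc : ∀ v ∈ S, Y + md T ≤ v.2 := by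
      intro v hv'
      have h1 := hr v hv'
      have h2 : ((Y + md T : ℤ) : ℝ) ≤ (v.2 : ℝ) := by
        push_cast
        linarith
      exact_mod_cast h2
    have hcr := conf_right (s := 0) hμ hTN (z := md N) (md_nonneg T) (md_le T) hY0 S
      (fun v hv' => ⟨hS v hv', hYc v hv'⟩) hpos
    have hT1 : 1 ≤ T := by
      by_contra hcon
      have hT0 : T = 0 := by omega
      have h1 := hcr.1
      have h2 : 0 ≤ md T := md_nonneg T
      have h3 : Y ≤ 0 := by
        rw [hT0] at h1 h2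
        simp only [Nat.cast_zero] at h1
        linarith
      have h3' : (Y : ℝ) ≤ 0 := by exact_mod_cast h3
      linarith
    refine hC 0 md (fun m => ⟨md_nonneg m, md_le m⟩) T N (md N) Y (md T) S (κ * EE μ n)
      (e μ 0 T (Y + md T) - e μ 0 T (md T)) hTN (md_nonneg T) hS (Or.inl ⟨md_le T, hY0, hYc, rfl⟩)
      (hfar T (Y + md T) hT1 (hTN.trans hN) (add_nonneg hY0 (md_nonneg T)) hcr.1 ?_)
    push_cast
    linarith
  · -- left
    have hNT : ((N - T : ℕ) : ℝ) = (N : ℝ) - T := by rw [Nat.cast_sub hTN]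
    have hc := hmd (N - T)
    rw [hNT] at hc
    set Y : ℤ := ⌈(T : ℝ) / 2 - R * w⌉ with hY
    have hY1 : (T : ℝ) / 2 - R * w ≤ Y := Int.le_ceil _
    have hY2 : (Y : ℝ) < (T : ℝ) / 2 - R * w + 1 := Int.ceil_lt_add_one _
    have hYc : ∀ v ∈ S, v.2 ≤ Y := by
      intro v hv'
      have h1 := hl v hv'
      have h2 : (v.2 : ℝ) ≤ (Y : ℝ) := h1.trans hY1
      exact_mod_cast h2
    have hYz : Y + md (N - T) ≤ md N := by
      have h2 : ((Y + md (N - T) : ℤ) : ℝ) ≤ ((md N : ℤ) : ℝ) := by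
        push_cast
        rw [hz]
        linarith
      exact_mod_cast h2
    have hcl := conf_left (s := 0) hμ hTN (z := md N) (md_nonneg (N - T)) (md_le (N - T)) hYz S
      (fun v hv' => ⟨hS v hv', hYc v hv'⟩) hpos
    have hzY : R * w - 1 ≤ ((md N - Y : ℤ) : ℝ) - ((N - T : ℕ) : ℝ) / 2 := by
      push_cast
      rw [hz, hNT]
      linarith
    have hzY0 : 0 ≤ md N - Y := by
      have h1 : (0 : ℝ) ≤ ((md N - Y : ℤ) : ℝ) := by
        have : (0 : ℝ) ≤ ((N - T : ℕ) : ℝ) := Nat.cast_nonneg _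
        linarith
      exact_mod_cast h1
    have hT1 : 1 ≤ N - T := by
      by_contra hcon
      have hT0 : N - T = 0 := by omega
      have h1 := hcl.1
      rw [hT0] at h1 hzY
      have h3 : ((md N - Y : ℤ) : ℝ) ≤ 0 := by exact_mod_cast h1
      simp only [Nat.cast_zero, zero_div, sub_zero] at hzY
      linarith
    refine hC 0 md (fun m => ⟨md_nonneg m, md_le m⟩) T N (md N) Y (md (N - T)) S (κ * EE μ n)
      (e μ 0 (N - T) (md N - Y) - e μ 0 (N - T) (md (N - T))) hTN (md_nonneg _) hS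
      (Or.inr ⟨md_le _, hYz, hYc, rfl⟩)
      (hfar (N - T) (md N - Y) hT1 (by omega) hzY0 hcl.1 (by linarith))

end Pool.Agent.W_7d29a1_h71g
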